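import Pool.Agent.U722.FF.Stm2
import Pool.Agent.U884.FFP.AB

set_option autoImplicit false

/-! Project FS, package CYC: finitely generated torsion-free abelian groups without `ℤ²`. -/

namespace Pool.Agent.U744.FSP

open U722.FF

/-- the functions of one variable -/
def one_iso : Multiplicative (Fin 1 → ℤ) ≃* Multiplicative ℤ where
  toFun g := Multiplicative.ofAdd (Multiplicative.toAdd g 0)
  invFun g := Multiplicative.ofAdd (fun _ => Multiplicative.toAdd g)
  left_inv g := by
    apply Multiplicative.toAdd.injective
    funext i
    rw [Fin.eq_zero i]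
    rfl
  right_inv g := rfl
  map_mul' g h := rfl

/-- the first two coordinates -/
def two_hom (n : ℕ) : Multiplicative (ℤ × ℤ) →* Multiplicative (Fin (n + 2) → ℤ) where
  toFun g := Multiplicative.ofAdd fun i =>
    if i = 0 then (Multiplicative.toAdd g).1 else
      if i = 1 then (Multiplicative.toAdd g).2 else 0
  map_one' := by
    apply Multiplicative.toAdd.injective
    funext i
    change (if i = 0 then (0 : ℤ) else if i = 1 then (0 : ℤ) else 0) = 0
    split_ifs <;> rfl
  map_mul' g h := by
    apply Multiplicative.toAdd.injective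
    funext i
    change (if i = 0 then (Multiplicative.toAdd g).1 + (Multiplicative.toAdd h).1 else
        if i = 1 then (Multiplicative.toAdd g).2 + (Multiplicative.toAdd h).2 else 0) =
      (if i = 0 then (Multiplicative.toAdd g).1 else
        if i = 1 then (Multiplicative.toAdd g).2 else 0) +
      (if i = 0 then (Multiplicative.toAdd h).1 else
        if i = 1 then (Multiplicative.toAdd h).2 else 0)
    split_ifs <;> simp

theorem two_hom_injective (n : ℕ) : Function.Injective (two_hom n) := by
  intro g h e
  have h0 : (if (0 : Fin (n + 2)) = 0 then (Multiplicative.toAdd g).1 else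
      if (0 : Fin (n + 2)) = 1 then (Multiplicative.toAdd g).2 else 0) =
      (if (0 : Fin (n + 2)) = 0 then (Multiplicative.toAdd h).1 else
      if (0 : Fin (n + 2)) = 1 then (Multiplicative.toAdd h).2 else 0) :=
    congrFun (congrArg Multiplicative.toAdd e) 0
  have h1 : (if (1 : Fin (n + 2)) = 0 then (Multiplicative.toAdd g).1 else
      if (1 : Fin (n + 2)) = 1 then (Multiplicative.toAdd g).2 else 0) =
      (if (1 : Fin (n + 2)) = 0 then (Multiplicative.toAdd h).1 else
      if (1 : Fin (n + 2)) = 1 then (Multiplicative.toAdd h).2 else 0) :=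
    congrFun (congrArg Multiplicative.toAdd e) 1
  have h10 : (1 : Fin (n + 2)) ≠ 0 := by
    intro h
    have := congrArg Fin.val h
    simp at this
  rw [if_pos rfl, if_pos rfl] at h0
  rw [if_neg h10, if_pos rfl, if_neg h10, if_pos rfl] at h1
  apply Multiplicative.toAdd.injective
  exact Prod.ext h0 h1

/-- Package CYC. -/
theorem t_CYC : S_CYC := by
  intro G _ hc hfg ht hz
  obtain ⟨n, ⟨e⟩⟩ := Pool.Agent.U884.FFP.iso_Zn G hc hfg ht
  match n, e with
  | 0, e =>
    left
    exact e.symm.toEquiv.subsingleton
  | 1, e =>
    right
    exact ⟨e.symm.trans one_iso⟩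
  | n + 2, e =>
    exfalso
    apply hz
    exact ⟨e.toMonoidHom.comp (two_hom n), e.injective.comp (two_hom_injective n)⟩

end Pool.Agent.U744.FSP
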